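import Pool.Agent.Q97.UM.Stm

set_option autoImplicit false

namespace Pool.Agent.Q208.UM

open Pool.Agent.Q97.UM ArithmeticFunction

noncomputable section

theorem al_one : al 1 = 1 := by simp [al]

theorem al_mul {m n : ℕ} (h : Nat.Coprime m n) : al (m * n) = al m * al n := by
  unfold al
  rw [Nat.factorization_mul_of_coprime h]
  exact Finsupp.prod_add_index_of_disjoint (Nat.Coprime.disjoint_primeFactors h) _

theorem al_pow {p : ℕ} (hp : p.Prime) (k : ℕ) : al (p ^ k) = ac k := by
  unfold al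
  rw [hp.factorization_pow]
  rcases Nat.eq_zero_or_pos k with rfl | hk
  · simp [ac]
  · rw [Finsupp.prod_single_index]
    simp [ac]

/-- the arithmetic function -/
def alA : ArithmeticFunction ℝ := ⟨fun n => if n = 0 then 0 else al n, by simp⟩

theorem alA_apply {n : ℕ} (hn : n ≠ 0) : alA n = al n := by simp [alA, hn]

theorem alA_mult : alA.IsMultiplicative := by
  refine IsMultiplicative.iff_ne_zero.2 ⟨by rw [alA_apply one_ne_zero, al_one], ?_⟩
  intro m n hm hn h
  rw [alA_apply hm, alA_apply hn, alA_apply (Nat.mul_ne_zero hm hn), al_mul h]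

/-- Segner -/
theorem ac_conv (k : ℕ) : ∑ i ∈ Finset.range (k + 1), ac i * ac (k - i) = if k = 0 then 1 else if k = 1 then -1 else 0 := by
  rcases k with _ | _ | k
  · simp [ac]
  · simp [Finset.sum_range_succ, ac]; norm_num
  · rw [Finset.sum_range_succ, Finset.sum_range_succ']
    have h1 : ∀ i ∈ Finset.range (k + 1), ac (i + 1) * ac (k + 1 + 1 - (i + 1)) = (catalan i : ℝ) * (catalan (k - i) : ℝ) * (4 / 4 ^ (k + 2)) := by
      intro i hi
      have hi' : i ≤ k := Nat.lt_succ_iff.1 (Finset.mem_range.1 hi)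
      have e : k + 1 + 1 - (i + 1) = (k - i) + 1 := by omega
      rw [e]
      have e4 : (4 : ℝ) ^ (k + 2) = 4 ^ (i + 1) * 4 ^ (k - i + 1) := by
        rw [← pow_add]; congr 1; omega
      rw [e4]
      simp only [ac]
      field_simp
      ring
    rw [Finset.sum_congr rfl h1, ← Finset.sum_mul]
    have h2 : (∑ i ∈ Finset.range (k + 1), (catalan i : ℝ) * (catalan (k - i) : ℝ)) = (catalan (k + 1) : ℝ) := by
      rw [catalan_succ', Finset.Nat.sum_antidiagonal_eq_sum_range_succ_mk]
      push_cast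
      rfl
    rw [h2]
    simp only [Nat.sub_zero, Nat.sub_self, ac]
    have : ¬ (k + 1 + 1 = 0) := by omega
    have h3 : ¬ (k + 1 + 1 = 1) := by omega
    rw [if_neg this, if_neg h3]
    ring

theorem conv_pow {R : Type*} [CommSemiring R] (f g : ArithmeticFunction R) {p : ℕ} (hp : p.Prime) (k : ℕ) :
    (f * g) (p ^ k) = ∑ i ∈ Finset.range (k + 1), f (p ^ i) * g (p ^ (k - i)) := by
  rw [ArithmeticFunction.mul_apply, Nat.sum_divisorsAntidiagonal (fun a b => f a * g b), Nat.sum_divisors_prime_pow hp]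
  apply Finset.sum_congr rfl
  intro i hi
  rw [Nat.pow_div (Nat.lt_succ_iff.1 (Finset.mem_range.1 hi)) hp.pos]

theorem alA_sq : alA * alA = ((ArithmeticFunction.moebius : ArithmeticFunction ℤ) : ArithmeticFunction ℝ) := by
  rw [IsMultiplicative.eq_iff_eq_on_prime_powers _ (alA_mult.mul alA_mult) _ isMultiplicative_moebius.intCast]
  intro p k hp
  rw [conv_pow _ _ hp]
  have h1 : ∀ i ∈ Finset.range (k + 1), alA (p ^ i) * alA (p ^ (k - i)) = ac i * ac (k - i) := by
    intro i _
    rw [alA_apply (pow_ne_zero _ hp.ne_zero), alA_apply (pow_ne_zero _ hp.ne_zero), al_pow hp, al_pow hp]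
  rw [Finset.sum_congr rfl h1, ac_conv]
  rw [ArithmeticFunction.intCoe_apply]
  rcases Nat.eq_zero_or_pos k with rfl | hk
  · simp
  · rw [moebius_apply_prime_pow hp hk.ne']
    have : k ≠ 0 := hk.ne'
    simp only [this, if_false]
    split_ifs <;> simp

theorem ac_psum (K : ℕ) : ∑ k ∈ Finset.range (K + 1), ac k = (Nat.centralBinom K : ℝ) / 4 ^ K := by
  induction K with
  | zero => simp [ac]
  | succ K ih =>
    rw [Finset.sum_range_succ, ih]
    simp only [ac]
    have h1 : ((K : ℝ) + 1) * (Nat.centralBinom (K + 1) : ℝ) = 2 * (2 * K + 1) * (Nat.centralBinom K : ℝ) := by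
      exact_mod_cast Nat.succ_mul_centralBinom_succ K
    have h2 : (Nat.centralBinom K : ℝ) = ((K : ℝ) + 1) * (catalan K : ℝ) := by
      have := succ_mul_catalan_eq_centralBinom K
      exact_mod_cast this.symm
    have hK : ((K : ℝ) + 1) ≠ 0 := by positivity
    have h3 : (Nat.centralBinom (K + 1) : ℝ) = 2 * (2 * K + 1) * (catalan K : ℝ) := by
      have : ((K : ℝ) + 1) * (Nat.centralBinom (K + 1) : ℝ) = ((K : ℝ) + 1) * (2 * (2 * K + 1) * (catalan K : ℝ)) := by
        rw [h1, h2]; ring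
      exact mul_left_cancel₀ hK this
    rw [h3, h2]
    field_simp
    ring

theorem ac_nonpos (k : ℕ) : ac (k + 1) ≤ 0 := by
  simp only [ac]
  have : (0 : ℝ) ≤ 2 * (catalan k : ℝ) / 4 ^ (k + 1) := by positivity
  linarith

theorem ac_abs_sum (K : ℕ) : ∑ k ∈ Finset.range (K + 1), |ac k| ≤ 2 := by
  have h1 : ∑ k ∈ Finset.range (K + 1), |ac k| = 2 - ∑ k ∈ Finset.range (K + 1), ac k := by
    rw [Finset.sum_range_succ', Finset.sum_range_succ']
    have : ∀ k ∈ Finset.range K, |ac (k + 1)| = - ac (k + 1) := fun k _ => abs_of_nonpos (ac_nonpos k)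
    rw [Finset.sum_congr rfl this, Finset.sum_neg_distrib]
    simp only [ac, abs_one]
    ring
  rw [h1, ac_psum]
  have : (0 : ℝ) ≤ (Nat.centralBinom K : ℝ) / 4 ^ K := by positivity
  linarith

theorem ac_abs_le (k : ℕ) : |ac k| ≤ 1 := by
  rcases k with _ | k
  · simp [ac]
  · have h := ac_abs_sum (k + 1)
    rw [Finset.sum_range_succ] at h
    have h0 : |ac 0| ≤ ∑ i ∈ Finset.range (k + 1), |ac i| :=
      Finset.single_le_sum (f := fun i => |ac i|) (fun i _ => abs_nonneg _) (Finset.mem_range.2 (Nat.succ_pos k))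
    have h1 : |ac 0| = 1 := by simp [ac]
    linarith

theorem al_abs_le (n : ℕ) : |al n| ≤ 1 := by
  unfold al
  rw [Finsupp.prod, Finset.abs_prod]
  exact Finset.prod_le_one (fun _ _ => abs_nonneg _) (fun _ _ => ac_abs_le _)

theorem t_AL : S_AL := by
  refine ⟨?_, ac_abs_sum, al_abs_le⟩
  intro n hn
  have h := congrArg (fun f : ArithmeticFunction ℝ => f n) alA_sq
  simp only [ArithmeticFunction.mul_apply, ArithmeticFunction.intCoe_apply] at h
  rw [← h]
  apply Finset.sum_congr rfl
  intro p hp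
  have h1 := Nat.mem_divisorsAntidiagonal.1 hp
  have h2 : p.1 ≠ 0 := by
    rintro h0
    apply h1.2
    rw [← h1.1, h0, zero_mul]
  have h3 : p.2 ≠ 0 := by
    rintro h0
    apply h1.2
    rw [← h1.1, h0, mul_zero]
  rw [alA_apply h2, alA_apply h3]

end

end Pool.Agent.Q208.UM
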