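import Pool.Agent.Q208.UM.AL

set_option autoImplicit false

namespace Pool.Agent.Q208.UM

open Pool.Agent.Q97.UM ArithmeticFunction

noncomputable section

theorem tw_mul (τ : ℝ) {m n : ℕ} (hm : 1 ≤ m) (hn : 1 ≤ n) (h : Nat.Coprime m n) : tw τ (m * n) = tw τ m * tw τ n := by
  unfold tw
  rw [al_mul h, Complex.ofReal_mul, Nat.cast_mul, Complex.natCast_mul_natCast_cpow]
  ring

/-- twisted arithmetic function -/
def twA (τ : ℝ) : ArithmeticFunction ℂ := ⟨fun n => if n = 0 then 0 else tw τ n, by simp⟩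

theorem twA_apply (τ : ℝ) {n : ℕ} (hn : n ≠ 0) : twA τ n = tw τ n := by simp [twA, hn]

theorem twA_mult (τ : ℝ) : (twA τ).IsMultiplicative := by
  refine IsMultiplicative.iff_ne_zero.2 ⟨?_, ?_⟩
  · rw [twA_apply τ one_ne_zero]
    simp [tw, al_one]
  · intro m n hm hn h
    rw [twA_apply τ hm, twA_apply τ hn, twA_apply τ (Nat.mul_ne_zero hm hn),
      tw_mul τ (Nat.pos_of_ne_zero hm) (Nat.pos_of_ne_zero hn) h]

/-- the function `1` -/
def oneA : ArithmeticFunction ℂ := ⟨fun n => if n = 0 then 0 else 1, by simp⟩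

theorem oneA_apply {n : ℕ} (hn : n ≠ 0) : oneA n = 1 := by simp [oneA, hn]

theorem oneA_mult : oneA.IsMultiplicative := by
  refine IsMultiplicative.iff_ne_zero.2 ⟨?_, ?_⟩
  · rw [oneA_apply one_ne_zero]
  · intro m n hm hn h
    rw [oneA_apply hm, oneA_apply hn, oneA_apply (Nat.mul_ne_zero hm hn), one_mul]

theorem cv_eq (a b : ℕ → ℂ) (f g : ArithmeticFunction ℂ) (ha : ∀ n, n ≠ 0 → a n = f n) (hb : ∀ n, n ≠ 0 → b n = g n)
    (n : ℕ) : cv a b n = (f * g) n := by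
  rw [ArithmeticFunction.mul_apply, cv]
  apply Finset.sum_congr rfl
  intro p hp
  have h1 := Nat.mem_divisorsAntidiagonal.1 hp
  have h2 : p.1 ≠ 0 := by
    rintro h0
    apply h1.2
    rw [← h1.1, h0, zero_mul]
  have h3 : p.2 ≠ 0 := by
    rintro h0
    apply h1.2
    rw [← h1.1, h0, mul_zero]
  rw [ha _ h2, hb _ h3]

/-- `ff` as an arithmetic function -/
def ffA (τ₁ τ₂ : ℝ) : ArithmeticFunction ℂ := oneA * (twA τ₁ * twA τ₂)

theorem ff_eq (τ₁ τ₂ : ℝ) (n : ℕ) : ff τ₁ τ₂ n = ffA τ₁ τ₂ n := by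
  unfold ff ffA
  apply cv_eq
  · intro n hn
    rw [oneA_apply hn]
  · intro n _
    apply cv_eq
    · intro m hm
      rw [twA_apply _ hm]
    · intro m hm
      rw [twA_apply _ hm]

theorem ffA_mult (τ₁ τ₂ : ℝ) : (ffA τ₁ τ₂).IsMultiplicative := oneA_mult.mul ((twA_mult τ₁).mul (twA_mult τ₂))

theorem tw_pow (τ : ℝ) {p : ℕ} (hp : p.Prime) (i : ℕ) :
    tw τ (p ^ i) = (ac i : ℂ) * Complex.exp (((-(τ * (i * Real.log p)) : ℝ) : ℂ) * Complex.I) := by
  unfold tw
  rw [al_pow hp]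
  congr 1
  have h0 : ((p ^ i : ℕ) : ℂ) ≠ 0 := by exact_mod_cast pow_ne_zero i hp.ne_zero
  rw [Complex.cpow_def_of_ne_zero h0]
  congr 1
  have h1 : Complex.log ((p ^ i : ℕ) : ℂ) = ((i * Real.log p : ℝ) : ℂ) := by
    rw [← Complex.ofReal_natCast, ← Complex.ofReal_log (Nat.cast_nonneg _)]
    congr 1
    push_cast
    rw [Real.log_pow]
  rw [h1]
  push_cast
  ring

/-- at prime powers -/
theorem ff_pow (τ₁ τ₂ : ℝ) {p : ℕ} (hp : p.Prime) (j : ℕ) :
    ff τ₁ τ₂ (p ^ j) = ∑ m ∈ Finset.range (j + 1), ∑ i ∈ Finset.range (m + 1),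
      ((ac i * ac (m - i) : ℝ) : ℂ) * Complex.exp (((-(τ₁ * i + τ₂ * ((m - i : ℕ) : ℝ)) * Real.log p : ℝ) : ℂ) * Complex.I) := by
  rw [ff_eq]
  unfold ffA
  rw [conv_pow _ _ hp]
  rw [← Finset.sum_range_reflect]
  apply Finset.sum_congr rfl
  intro m hm
  have hm' : m ≤ j := Nat.lt_succ_iff.1 (Finset.mem_range.1 hm)
  have e : j - (j + 1 - 1 - m) = m := by omega
  rw [e, oneA_apply (pow_ne_zero _ hp.ne_zero), one_mul, conv_pow _ _ hp]
  apply Finset.sum_congr rfl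
  intro i hi
  rw [twA_apply _ (pow_ne_zero _ hp.ne_zero), twA_apply _ (pow_ne_zero _ hp.ne_zero), tw_pow _ hp, tw_pow _ hp]
  have : Complex.exp (((-(τ₁ * i + τ₂ * ((m - i : ℕ) : ℝ)) * Real.log p : ℝ) : ℂ) * Complex.I) =
      Complex.exp (((-(τ₁ * (i * Real.log p)) : ℝ) : ℂ) * Complex.I) *
      Complex.exp (((-(τ₂ * ((m - i : ℕ) * Real.log p)) : ℝ) : ℂ) * Complex.I) := by
    rw [← Complex.exp_add]
    congr 1
    push_cast
    ring
  rw [this]
  push_cast
  ring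

theorem sum_zero (j : ℕ) (hj : 1 ≤ j) : ∑ m ∈ Finset.range (j + 1), ∑ i ∈ Finset.range (m + 1), ac i * ac (m - i) = 0 := by
  rw [Finset.sum_congr rfl (fun m _ => ac_conv m)]
  obtain ⟨j, rfl⟩ : ∃ k, j = k + 1 := ⟨j - 1, by omega⟩
  rw [Finset.sum_range_succ', Finset.sum_range_succ']
  simp

theorem sum_abs (j : ℕ) : ∑ m ∈ Finset.range (j + 1), ∑ i ∈ Finset.range (m + 1), |ac i| * |ac (m - i)| ≤ 4 := by
  have h1 : ∑ m ∈ Finset.range (j + 1), ∑ i ∈ Finset.range (m + 1), |ac i| * |ac (m - i)| ≤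
      (∑ i ∈ Finset.range (j + 1), |ac i|) * (∑ i ∈ Finset.range (j + 1), |ac i|) := by
    rw [Finset.sum_mul_sum, ← Finset.sum_product', ]
    have e : ∑ m ∈ Finset.range (j + 1), ∑ i ∈ Finset.range (m + 1), |ac i| * |ac (m - i)| =
        ∑ x ∈ (Finset.range (j + 1)).sigma (fun m => Finset.range (m + 1)), |ac x.2| * |ac (x.1 - x.2)| := by
      rw [Finset.sum_sigma]
    rw [e]
    have e2 : ∑ x ∈ (Finset.range (j + 1)).sigma (fun m => Finset.range (m + 1)), |ac x.2| * |ac (x.1 - x.2)| =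
        ∑ y ∈ ((Finset.range (j + 1)).sigma (fun m => Finset.range (m + 1))).image (fun x => (x.2, x.1 - x.2)), |ac y.1| * |ac y.2| := by
      rw [Finset.sum_image]
      rintro ⟨m, i⟩ h1 ⟨m', i'⟩ h2 h
      simp only [Finset.coe_sigma, Set.mem_sigma_iff, Finset.coe_range, Set.mem_Iio, Finset.mem_coe, Finset.mem_range] at h1 h2
      simp only [Prod.mk.injEq] at h
      obtain ⟨rfl, h⟩ := h
      have : m = m' := by omega
      subst this
      rfl
    rw [e2]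
    apply Finset.sum_le_sum_of_subset_of_nonneg
    · intro y hy
      obtain ⟨x, hx, rfl⟩ := Finset.mem_image.1 hy
      simp only [Finset.mem_sigma, Finset.mem_range] at hx
      simp only [Finset.mem_product, Finset.mem_range]
      omega
    · intro y _ _
      positivity
  have h2 := ac_abs_sum j
  have h3 : (0 : ℝ) ≤ ∑ i ∈ Finset.range (j + 1), |ac i| := Finset.sum_nonneg fun _ _ => abs_nonneg _
  nlinarith

theorem exp_sub_one_le (θ : ℝ) : ‖Complex.exp ((θ : ℂ) * Complex.I) - 1‖ ≤ min 2 |θ| := by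
  apply le_min
  · have h := norm_sub_le (Complex.exp ((θ : ℂ) * Complex.I)) 1
    rw [Complex.norm_exp_ofReal_mul_I, norm_one] at h
    linarith
  · have := Real.norm_exp_I_mul_ofReal_sub_one_le (x := θ)
    rw [Real.norm_eq_abs, mul_comm] at this
    exact this

theorem t_FB : S_FB := by
  intro τ₁ τ₂
  refine ⟨?_, ?_, ?_⟩
  · rw [ff_eq]; exact (ffA_mult τ₁ τ₂).map_one
  · intro m n _ _ h
    rw [ff_eq, ff_eq, ff_eq]
    exact (ffA_mult τ₁ τ₂).map_mul_of_coprime h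
  · intro p j hp hj
    have hlog : 0 ≤ Real.log p := Real.log_natCast_nonneg p
    have hz : (∑ m ∈ Finset.range (j + 1), ∑ i ∈ Finset.range (m + 1), ((ac i * ac (m - i) : ℝ) : ℂ)) = 0 := by
      have := congrArg (fun x : ℝ => (x : ℂ)) (sum_zero j hj)
      simpa only [Complex.ofReal_sum, Complex.ofReal_zero] using this
    have h1 : ff τ₁ τ₂ (p ^ j) = ∑ m ∈ Finset.range (j + 1), ∑ i ∈ Finset.range (m + 1),
      ((ac i * ac (m - i) : ℝ) : ℂ) * (Complex.exp (((-(τ₁ * i + τ₂ * ((m - i : ℕ) : ℝ)) * Real.log p : ℝ) : ℂ) * Complex.I) - 1) := by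
      have : ff τ₁ τ₂ (p ^ j) = ff τ₁ τ₂ (p ^ j) - (∑ m ∈ Finset.range (j + 1), ∑ i ∈ Finset.range (m + 1), ((ac i * ac (m - i) : ℝ) : ℂ)) := by
        rw [hz, sub_zero]
      rw [this, ff_pow _ _ hp, ← Finset.sum_sub_distrib]
      apply Finset.sum_congr rfl
      intro m _
      rw [← Finset.sum_sub_distrib]
      apply Finset.sum_congr rfl
      intro i _
      ring
    rw [h1]
    set D : ℝ := min 2 (j * ((|τ₁| + |τ₂|) * Real.log p)) with hD
    have hD0 : 0 ≤ D := le_min (by norm_num) (by positivity)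
    have h2 : ‖∑ m ∈ Finset.range (j + 1), ∑ i ∈ Finset.range (m + 1),
      ((ac i * ac (m - i) : ℝ) : ℂ) * (Complex.exp (((-(τ₁ * i + τ₂ * ((m - i : ℕ) : ℝ)) * Real.log p : ℝ) : ℂ) * Complex.I) - 1)‖ ≤
      ∑ m ∈ Finset.range (j + 1), ∑ i ∈ Finset.range (m + 1), (|ac i| * |ac (m - i)|) * D := by
      refine (norm_sum_le _ _).trans (Finset.sum_le_sum fun m hm => ?_)
      refine (norm_sum_le _ _).trans (Finset.sum_le_sum fun i hi => ?_)
      have hm' : m ≤ j := Nat.lt_succ_iff.1 (Finset.mem_range.1 hm)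
      have hi' : i ≤ m := Nat.lt_succ_iff.1 (Finset.mem_range.1 hi)
      rw [norm_mul, Complex.norm_real, Real.norm_eq_abs, abs_mul]
      apply mul_le_mul_of_nonneg_left _ (by positivity)
      refine (exp_sub_one_le _).trans ?_
      rw [hD]
      apply min_le_min_left
      rw [abs_mul, abs_neg, abs_of_nonneg hlog]
      have h3 : |τ₁ * i + τ₂ * ((m - i : ℕ) : ℝ)| ≤ |τ₁| * j + |τ₂| * j := by
        refine (abs_add_le _ _).trans ?_
        rw [abs_mul, abs_mul, abs_of_nonneg (Nat.cast_nonneg i : (0 : ℝ) ≤ i), abs_of_nonneg (Nat.cast_nonneg (m - i) : (0 : ℝ) ≤ ((m - i : ℕ) : ℝ))]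
        have a1 : (i : ℝ) ≤ j := by exact_mod_cast hi'.trans hm'
        have a2 : ((m - i : ℕ) : ℝ) ≤ j := by exact_mod_cast (Nat.sub_le m i).trans hm'
        exact add_le_add (mul_le_mul_of_nonneg_left a1 (abs_nonneg _)) (mul_le_mul_of_nonneg_left a2 (abs_nonneg _))
      calc |τ₁ * i + τ₂ * ((m - i : ℕ) : ℝ)| * Real.log p ≤ (|τ₁| * j + |τ₂| * j) * Real.log p :=
            mul_le_mul_of_nonneg_right h3 hlog
        _ = j * ((|τ₁| + |τ₂|) * Real.log p) := by ring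
    refine h2.trans ?_
    have h4 : ∑ m ∈ Finset.range (j + 1), ∑ i ∈ Finset.range (m + 1), (|ac i| * |ac (m - i)|) * D =
        (∑ m ∈ Finset.range (j + 1), ∑ i ∈ Finset.range (m + 1), |ac i| * |ac (m - i)|) * D := by
      rw [Finset.sum_mul]
      apply Finset.sum_congr rfl
      intro m _
      rw [Finset.sum_mul]
    rw [h4]
    have h5 : D ≤ 2 * (j * min 1 ((|τ₁| + |τ₂|) * Real.log p)) := by
      have hj1 : (1 : ℝ) ≤ j := by exact_mod_cast hj
      rcases min_cases 1 ((|τ₁| + |τ₂|) * Real.log p) with ⟨h, _⟩ | ⟨h, _⟩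
      · rw [h]
        have := min_le_left 2 (j * ((|τ₁| + |τ₂|) * Real.log p))
        linarith
      · rw [h]
        have := min_le_right 2 (j * ((|τ₁| + |τ₂|) * Real.log p))
        have h6 : 0 ≤ j * ((|τ₁| + |τ₂|) * Real.log p) := by positivity
        linarith
    have h6 := sum_abs j
    calc (∑ m ∈ Finset.range (j + 1), ∑ i ∈ Finset.range (m + 1), |ac i| * |ac (m - i)|) * D ≤ 4 * D :=
          mul_le_mul_of_nonneg_right h6 hD0
      _ ≤ 4 * (2 * (j * min 1 ((|τ₁| + |τ₂|) * Real.log p))) := by linarith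
      _ = j * (8 * min 1 ((|τ₁| + |τ₂|) * Real.log p)) := by ring

end

end Pool.Agent.Q208.UM
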