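import Pool.Agent.Q97.UM.Stm

set_option autoImplicit false

namespace Pool.Agent.Q208.UM

open Pool.Agent.Q97.UM Filter Topology Complex

noncomputable section

theorem zeta_anal {s : ℂ} (hs : s ≠ 1) : AnalyticAt ℂ riemannZeta s := by
  have h : DifferentiableOn ℂ riemannZeta {1}ᶜ := fun z hz => (differentiableAt_riemannZeta hz).differentiableWithinAt
  exact h.analyticAt (isOpen_compl_singleton.mem_nhds hs)

theorem zeta_order {s : ℂ} (hs : s ≠ 1) : analyticOrderAt riemannZeta s ≠ ⊤ := by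
  intro h
  rw [analyticOrderAt_eq_top] at h
  have hA : AnalyticOnNhd ℂ riemannZeta {1}ᶜ := fun z hz => zeta_anal hz
  have hc : IsPreconnected ({1}ᶜ : Set ℂ) := by
    apply IsConnected.isPreconnected
    apply isConnected_compl_singleton_of_one_lt_rank
    simp [Complex.rank_real_complex]
  have h2 := hA.eqOn_zero_of_preconnected_of_eventuallyEq_zero hc hs h
  have h3 : (2 : ℂ) ∈ ({1}ᶜ : Set ℂ) := by simp
  have h4 := h2 h3
  have h5 : riemannZeta 2 ≠ 0 := riemannZeta_ne_zero_of_one_lt_re (by norm_num)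
  exact h5 h4

theorem half_ne (u : ℝ) : (1 / 2 + u * I : ℂ) ≠ 1 := by
  intro h
  have := congrArg Complex.re h
  simp at this

/-- local sign -/
theorem loc_sign (ph : ℝ → ℂ) (h1 : ∀ t, ‖ph t‖ = 1) (hc : Continuous ph)
    (hr : ∀ t : ℝ, (ph t * riemannZeta (1 / 2 + t * I)).im = 0) (u₀ : ℝ)
    (ho : ¬ Odd (analyticOrderNatAt riemannZeta (1 / 2 + u₀ * I))) :
    (∀ᶠ u in 𝓝[≠] u₀, 0 < (ph u * riemannZeta (1 / 2 + u * I)).re) ∨
    (∀ᶠ u in 𝓝[≠] u₀, (ph u * riemannZeta (1 / 2 + u * I)).re < 0) := by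
  obtain ⟨m, hm⟩ := Nat.not_odd_iff_even.1 ho
  have hord : analyticOrderAt riemannZeta (1 / 2 + u₀ * I) = ((m + m : ℕ) : ℕ∞) := by
    rw [← hm]
    exact (Nat.cast_analyticOrderNatAt (zeta_order (half_ne u₀))).symm
  rw [(zeta_anal (half_ne u₀)).analyticOrderAt_eq_natCast] at hord
  obtain ⟨g, hg, hg0, hgz⟩ := hord
  have hcont : Continuous (fun u : ℝ => (1 / 2 + u * I : ℂ)) := by fun_prop
  have hgz' : ∀ᶠ u : ℝ in 𝓝 u₀, riemannZeta (1 / 2 + u * I) = ((1 / 2 + u * I : ℂ) - (1 / 2 + u₀ * I)) ^ (m + m) • g (1 / 2 + u * I) :=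
    hcont.continuousAt.eventually hgz
  have e1 : ∀ u : ℝ, ((1 / 2 + u * I : ℂ) - (1 / 2 + u₀ * I)) ^ (m + m) = ((((u - u₀) ^ 2) ^ m : ℝ) : ℂ) * (-1) ^ m := by
    intro u
    have : (1 / 2 + u * I : ℂ) - (1 / 2 + u₀ * I) = ((u - u₀ : ℝ) : ℂ) * I := by push_cast; ring
    rw [this, ← two_mul, pow_mul, mul_pow, I_sq, mul_pow]
    push_cast
    ring
  set G : ℝ → ℂ := fun u => ph u * ((-1) ^ m * g (1 / 2 + u * I)) with hG
  have hGc : ContinuousAt G u₀ := by
    apply hc.continuousAt.mul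
    apply continuousAt_const.mul
    exact ContinuousAt.comp (f := fun u : ℝ => (1 / 2 + u * I : ℂ)) hg.continuousAt hcont.continuousAt
  have hZ : ∀ᶠ u : ℝ in 𝓝 u₀, ph u * riemannZeta (1 / 2 + u * I) = ((((u - u₀) ^ 2) ^ m : ℝ) : ℂ) * G u := by
    filter_upwards [hgz'] with u hu
    rw [hu, e1, smul_eq_mul, hG]
    ring
  have hpos : ∀ᶠ u : ℝ in 𝓝[≠] u₀, (0 : ℝ) < ((u - u₀) ^ 2) ^ m := by
    filter_upwards [self_mem_nhdsWithin] with u hu
    have : u - u₀ ≠ 0 := sub_ne_zero.2 hu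
    positivity
  have hGim : (G u₀).im = 0 := by
    have ht : Tendsto (fun u => (G u).im) (𝓝[≠] u₀) (𝓝 (G u₀).im) :=
      (Complex.continuous_im.continuousAt.comp hGc).tendsto.mono_left nhdsWithin_le_nhds
    have h0 : ∀ᶠ u : ℝ in 𝓝[≠] u₀, (G u).im = 0 := by
      filter_upwards [hpos, nhdsWithin_le_nhds hZ] with u hu hu2
      have h3 := hr u
      rw [hu2, Complex.im_ofReal_mul] at h3
      exact (mul_eq_zero.1 h3).resolve_left hu.ne'
    have ht2 : Tendsto (fun u => (G u).im) (𝓝[≠] u₀) (𝓝 0) := by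
      refine tendsto_const_nhds.congr' ?_
      filter_upwards [h0] with u hu
      exact hu.symm
    exact tendsto_nhds_unique ht ht2
  have hG0 : G u₀ ≠ 0 := by
    rw [hG]
    refine mul_ne_zero ?_ (mul_ne_zero (pow_ne_zero _ (by norm_num)) hg0)
    intro h
    have := h1 u₀
    rw [h, norm_zero] at this
    norm_num at this
  have hGre : (G u₀).re ≠ 0 := fun h => hG0 (Complex.ext h hGim)
  have hrec : ContinuousAt (fun u => (G u).re) u₀ := Complex.continuous_re.continuousAt.comp hGc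
  rcases lt_or_gt_of_ne hGre with h | h
  · right
    have h2 : ∀ᶠ u in 𝓝 u₀, (G u).re < 0 := hrec.eventually (gt_mem_nhds h)
    filter_upwards [hpos, nhdsWithin_le_nhds hZ, nhdsWithin_le_nhds h2] with u a1 a2 a3
    rw [a2, Complex.re_ofReal_mul]
    exact mul_neg_of_pos_of_neg a1 a3
  · left
    have h2 : ∀ᶠ u in 𝓝 u₀, 0 < (G u).re := hrec.eventually (lt_mem_nhds h)
    filter_upwards [hpos, nhdsWithin_le_nhds hZ, nhdsWithin_le_nhds h2] with u a1 a2 a3
    rw [a2, Complex.re_ofReal_mul]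
    exact mul_pos a1 a3

theorem isOpen_punct (p : ℝ → Prop) : IsOpen {u : ℝ | ∀ᶠ v in 𝓝[≠] u, p v} := by
  rw [isOpen_iff_mem_nhds]
  intro u₀ hu₀
  have h := eventually_eventually_nhdsWithin.2 hu₀
  have h2 : ∀ᶠ v in 𝓝[≠] u₀, ∀ᶠ w in 𝓝[≠] v, p w := by
    filter_upwards [h, self_mem_nhdsWithin] with v hv hv2
    have : 𝓝[{u₀}ᶜ] v = 𝓝 v := isOpen_compl_singleton.nhdsWithin_eq hv2
    rw [this] at hv
    exact nhdsWithin_le_nhds hv
  rw [eventually_nhdsWithin_iff] at h2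
  filter_upwards [h2] with v hv
  by_cases hvu : v = u₀
  · rw [hvu]; exact hu₀
  · exact hv hvu

theorem t_SGN : S_SGN := by
  intro ph h1 hc hr a b _ ho
  have hcz : Continuous fun u : ℝ => (ph u * riemannZeta (1 / 2 + u * I)).re := by
    apply Complex.continuous_re.comp
    apply hc.mul
    rw [continuous_iff_continuousAt]
    intro u
    exact ContinuousAt.comp (f := fun u : ℝ => (1 / 2 + u * I : ℂ)) (zeta_anal (half_ne u)).continuousAt (by fun_prop)
  have hsub := IsPreconnected.subset_or_subset (s := Set.Icc a b)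
    (isOpen_punct fun u => 0 < (ph u * riemannZeta (1 / 2 + u * I)).re)
    (isOpen_punct fun u => (ph u * riemannZeta (1 / 2 + u * I)).re < 0) ?_ ?_ isPreconnected_Icc
  · rcases hsub with h | h
    · left
      intro u hu
      have h2 : ∀ᶠ v in 𝓝[≠] u, 0 < (ph v * riemannZeta (1 / 2 + v * I)).re := h hu
      have ht : Tendsto (fun u : ℝ => (ph u * riemannZeta (1 / 2 + u * I)).re) (𝓝[≠] u) (𝓝 (ph u * riemannZeta (1 / 2 + u * I)).re) :=
        hcz.continuousAt.tendsto.mono_left nhdsWithin_le_nhds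
      exact ge_of_tendsto ht (h2.mono fun _ h => h.le)
    · right
      intro u hu
      have h2 : ∀ᶠ v in 𝓝[≠] u, (ph v * riemannZeta (1 / 2 + v * I)).re < 0 := h hu
      have ht : Tendsto (fun u : ℝ => (ph u * riemannZeta (1 / 2 + u * I)).re) (𝓝[≠] u) (𝓝 (ph u * riemannZeta (1 / 2 + u * I)).re) :=
        hcz.continuousAt.tendsto.mono_left nhdsWithin_le_nhds
      exact le_of_tendsto ht (h2.mono fun _ h => h.le)
  · rw [Set.disjoint_left]
    intro u hu1 hu2
    have h3 : ∀ᶠ v in 𝓝[≠] u, False := by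
      filter_upwards [hu1, hu2] with v a1 a2
      linarith
    exact h3.exists.choose_spec
  · intro u hu
    exact loc_sign ph h1 hc hr u (ho u hu)

end

end Pool.Agent.Q208.UM
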