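import Pool.Agent.Q97.UM.Stm

set_option autoImplicit false

namespace Pool.Agent.Q208.UM

open Pool.Agent.Q97.UM Filter Topology MeasureTheory

noncomputable section

theorem sum_int (φ ψ : ℝ → ℝ) (hφ : ContinuousOn φ (Set.Ici 1))
    (h : ∀ x y, 1 ≤ x → x ≤ y → |φ y - φ x| ≤ ψ y - ψ x) (N : ℕ) :
    |∑ l ∈ Finset.Icc 1 N, φ l - ∫ x in (1 : ℝ)..(N + 1), φ x| ≤ ψ (N + 1) - ψ 1 := by
  induction N with
  | zero => simp
  | succ N ih =>
    have hN : (0 : ℝ) ≤ N := Nat.cast_nonneg N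
    rw [Finset.sum_Icc_succ_top (by omega)]
    have hi : ∀ a b : ℝ, 1 ≤ a → 1 ≤ b → IntervalIntegrable φ volume a b := by
      intro a b ha hb
      apply ContinuousOn.intervalIntegrable
      apply hφ.mono
      intro x hx
      have := (Set.mem_uIcc.1 hx)
      simp only [Set.mem_Ici]
      rcases this with h | h <;> linarith [h.1, h.2]
    have h1 : ∫ x in (1 : ℝ)..(((N + 1 : ℕ) : ℝ) + 1), φ x = (∫ x in (1 : ℝ)..(N + 1), φ x) + ∫ x in ((N : ℝ) + 1)..(((N + 1 : ℕ) : ℝ) + 1), φ x := by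
      rw [intervalIntegral.integral_add_adjacent_intervals (hi _ _ le_rfl (by linarith)) (hi _ _ (by linarith) (by push_cast; linarith))]
    rw [h1]
    have h2 : |φ ((N + 1 : ℕ) : ℝ) - ∫ x in ((N : ℝ) + 1)..(((N + 1 : ℕ) : ℝ) + 1), φ x| ≤ ψ (((N + 1 : ℕ) : ℝ) + 1) - ψ (N + 1) := by
      have e : φ ((N + 1 : ℕ) : ℝ) = ∫ x in ((N : ℝ) + 1)..(((N + 1 : ℕ) : ℝ) + 1), φ ((N + 1 : ℕ) : ℝ) := by
        rw [intervalIntegral.integral_const]; push_cast; simp
      rw [e, ← intervalIntegral.integral_sub (by simp) (hi _ _ (by linarith) (by push_cast; linarith))]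
      have h3 := intervalIntegral.norm_integral_le_of_norm_le_const (a := (N : ℝ) + 1) (b := ((N + 1 : ℕ) : ℝ) + 1)
        (C := ψ (((N + 1 : ℕ) : ℝ) + 1) - ψ (N + 1)) (f := fun x => φ ((N + 1 : ℕ) : ℝ) - φ x) (by
        intro x hx
        rw [Set.uIoc_of_le (by push_cast; linarith)] at hx
        rw [Real.norm_eq_abs]
        push_cast at hx ⊢
        have a1 := h ((N : ℝ) + 1) x (by linarith) hx.1.le
        have a2 := h x ((N : ℝ) + 1 + 1) (by linarith [hx.1]) hx.2
        have a3 := abs_nonneg (φ ((N : ℝ) + 1 + 1) - φ x)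
        rw [abs_sub_comm]
        linarith)
      refine h3.trans ?_
      have : |((N + 1 : ℕ) : ℝ) + 1 - ((N : ℝ) + 1)| = 1 := by
        push_cast
        rw [show (N : ℝ) + 1 + 1 - (N + 1) = 1 by ring, abs_one]
      rw [this, mul_one]
    calc |∑ l ∈ Finset.Icc 1 N, φ l + φ ((N + 1 : ℕ) : ℝ) - ((∫ x in (1 : ℝ)..(N + 1), φ x) + ∫ x in ((N : ℝ) + 1)..(((N + 1 : ℕ) : ℝ) + 1), φ x)|
        = |(∑ l ∈ Finset.Icc 1 N, φ l - ∫ x in (1 : ℝ)..(N + 1), φ x) + (φ ((N + 1 : ℕ) : ℝ) - ∫ x in ((N : ℝ) + 1)..(((N + 1 : ℕ) : ℝ) + 1), φ x)| := by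
          congr 1; ring
      _ ≤ _ := abs_add_le _ _
      _ ≤ (ψ (N + 1) - ψ 1) + (ψ (((N + 1 : ℕ) : ℝ) + 1) - ψ (N + 1)) := add_le_add ih h2
      _ = _ := by ring

/-- comparison function -/
theorem comp (H : ℝ → ℝ) (hH : ContDiff ℝ 1 H) (h1 : ∀ u, |H u| ≤ 1) (h2 : ∀ u, |deriv H u| ≤ 2) (v₀ : ℝ) (hv : ∀ u, u < v₀ → H u = 0)
    (x y : ℝ) (hx : 1 ≤ x) (hxy : x ≤ y) :
    |H (Real.log y) / y - H (Real.log x) / x| ≤ -(3 / max y (Real.exp v₀)) - -(3 / max x (Real.exp v₀)) := by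
  have hz : ∀ u, u ≤ v₀ → H u = 0 := by
    intro u hu
    rcases hu.lt_or_eq with h | h
    · exact hv u h
    · rw [h]
      have ht : Tendsto H (𝓝[<] v₀) (𝓝 (H v₀)) := hH.continuous.continuousAt.tendsto.mono_left nhdsWithin_le_nhds
      have ht2 : Tendsto H (𝓝[<] v₀) (𝓝 0) := by
        refine tendsto_const_nhds.congr' ?_
        filter_upwards [self_mem_nhdsWithin] with w hw
        exact (hv w hw).symm
      exact tendsto_nhds_unique ht ht2
  have hz' : ∀ x, 1 ≤ x → x ≤ Real.exp v₀ → H (Real.log x) = 0 := by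
    intro x hx hxA
    apply hz
    rw [Real.log_le_iff_le_exp (by linarith)]
    exact hxA
  -- the monotone part
  have key : ∀ x y, 1 ≤ x → Real.exp v₀ ≤ x → x ≤ y → |H (Real.log y) / y - H (Real.log x) / x| ≤ 3 / x - 3 / y := by
    intro x y hx _ hxy
    have hd : ∀ t : ℝ, 0 < t → HasDerivAt (fun t => H (Real.log t) / t) ((deriv H (Real.log t) - H (Real.log t)) / t ^ 2) t := by
      intro t ht
      have a1 : HasDerivAt (fun t => H (Real.log t)) (deriv H (Real.log t) * t⁻¹) t :=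
        HasDerivAt.comp t ((hH.differentiable (by norm_num)) _).hasDerivAt (Real.hasDerivAt_log ht.ne')
      have a2 : HasDerivAt (fun t => H (Real.log t) / t) _ t := a1.div (hasDerivAt_id t) ht.ne'
      refine a2.congr_deriv ?_
      field_simp
    have hd3 : ∀ t : ℝ, 0 < t → HasDerivAt (fun t => 3 / t) (-3 / t ^ 2) t := by
      intro t ht
      have a2 : HasDerivAt (fun t => 3 / t) _ t := (hasDerivAt_const t (3 : ℝ)).div (hasDerivAt_id t) ht.ne'
      refine a2.congr_deriv ?_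
      simp
    have hb : ∀ t : ℝ, |deriv H (Real.log t) - H (Real.log t)| ≤ 3 := by
      intro t
      have := abs_sub (deriv H (Real.log t)) (H (Real.log t))
      linarith [h1 (Real.log t), h2 (Real.log t)]
    have m1 : MonotoneOn (fun t => H (Real.log t) / t - 3 / t) (Set.Ici 1) := by
      apply monotoneOn_of_deriv_nonneg (convex_Ici 1)
      · intro t ht
        exact ((hd t (lt_of_lt_of_le one_pos ht)).sub (hd3 t (lt_of_lt_of_le one_pos ht))).continuousAt.continuousWithinAt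
      · intro t ht
        rw [interior_Ici] at ht
        have ht0 : (0 : ℝ) < t := lt_trans one_pos ht
        exact ((hd t ht0).sub (hd3 t ht0)).differentiableAt.differentiableWithinAt
      · intro t ht
        rw [interior_Ici] at ht
        have ht0 : (0 : ℝ) < t := lt_trans one_pos ht
        have e := ((hd t ht0).sub (hd3 t ht0)).deriv
        rw [show deriv (fun t => H (Real.log t) / t - 3 / t) t = (deriv H (Real.log t) - H (Real.log t)) / t ^ 2 - -3 / t ^ 2 from e]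
        rw [← sub_div]
        apply div_nonneg _ (by positivity)
        have := (abs_le.1 (hb t)).1
        linarith
    have m2 : MonotoneOn (fun t => -(H (Real.log t) / t) - 3 / t) (Set.Ici 1) := by
      apply monotoneOn_of_deriv_nonneg (convex_Ici 1)
      · intro t ht
        exact ((hd t (lt_of_lt_of_le one_pos ht)).neg.sub (hd3 t (lt_of_lt_of_le one_pos ht))).continuousAt.continuousWithinAt
      · intro t ht
        rw [interior_Ici] at ht
        have ht0 : (0 : ℝ) < t := lt_trans one_pos ht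
        exact ((hd t ht0).neg.sub (hd3 t ht0)).differentiableAt.differentiableWithinAt
      · intro t ht
        rw [interior_Ici] at ht
        have ht0 : (0 : ℝ) < t := lt_trans one_pos ht
        have e := ((hd t ht0).neg.sub (hd3 t ht0)).deriv
        rw [show deriv (fun t => -(H (Real.log t) / t) - 3 / t) t = -((deriv H (Real.log t) - H (Real.log t)) / t ^ 2) - -3 / t ^ 2 from e]
        rw [← neg_div, ← sub_div]
        apply div_nonneg _ (by positivity)
        have := (abs_le.1 (hb t)).2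
        linarith
    have a1 := m1 (Set.mem_Ici.2 hx) (Set.mem_Ici.2 (hx.trans hxy)) hxy
    have a2 := m2 (Set.mem_Ici.2 hx) (Set.mem_Ici.2 (hx.trans hxy)) hxy
    simp only at a1 a2
    rw [abs_le]
    constructor <;> linarith
  rcases le_total y (Real.exp v₀) with hy | hy
  · rw [hz' y (hx.trans hxy) hy, hz' x hx (hxy.trans hy), max_eq_right hy, max_eq_right (hxy.trans hy)]
    simp
  · rcases le_total x (Real.exp v₀) with hx' | hx'
    · rw [hz' x hx hx', max_eq_left hy, max_eq_right hx']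
      rcases le_total 1 (Real.exp v₀) with hA | hA
      · have := key (Real.exp v₀) y hA le_rfl hy
        rw [hz' (Real.exp v₀) hA le_rfl] at this
        simp only [zero_div] at this ⊢
        linarith
      · have hx1 : x = Real.exp v₀ := le_antisymm hx' (hA.trans hx)
        have := key x y hx hx1.ge hxy
        rw [hz' x hx hx'] at this
        rw [← hx1]
        linarith
    · rw [max_eq_left hy, max_eq_left hx']
      have := key x y hx hx' hxy
      linarith

/-- the pairs -/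
theorem pairs (d₁ d₂ g Z : ℕ) (hg : 0 < g) (hd₁ : 0 < d₁) (hd₂ : 0 < d₂) (hd : Nat.Coprime d₁ d₂) (f : ℕ → ℕ → ℝ)
    (hf : ∀ l, 1 ≤ l → (Z < l * d₂ ∨ Z < l * d₁) → f (l * d₂) (l * d₁) = 0) :
    (∑ n ∈ Finset.Icc 1 Z, ∑ n' ∈ Finset.Icc 1 Z, if n * (g * d₁) = n' * (g * d₂) then f n n' else 0) =
    ∑ l ∈ Finset.Icc 1 Z, f (l * d₂) (l * d₁) := by
  have h1 : (∑ n ∈ Finset.Icc 1 Z, ∑ n' ∈ Finset.Icc 1 Z, if n * (g * d₁) = n' * (g * d₂) then f n n' else 0) =
      ∑ x ∈ (Finset.Icc 1 Z ×ˢ Finset.Icc 1 Z).filter (fun x => x.1 * (g * d₁) = x.2 * (g * d₂)), f x.1 x.2 := by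
    rw [Finset.sum_filter, Finset.sum_product]
  have h2 : ∑ l ∈ Finset.Icc 1 Z, f (l * d₂) (l * d₁) =
      ∑ l ∈ (Finset.Icc 1 Z).filter (fun l => l * d₂ ≤ Z ∧ l * d₁ ≤ Z), f (l * d₂) (l * d₁) := by
    symm
    apply Finset.sum_filter_of_ne
    intro l hl hne
    by_contra hcon
    apply hne
    apply hf l (Finset.mem_Icc.1 hl).1
    by_contra h3
    push Not at h3
    exact hcon h3
  have h3 : (Finset.Icc 1 Z ×ˢ Finset.Icc 1 Z).filter (fun x => x.1 * (g * d₁) = x.2 * (g * d₂)) =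
      ((Finset.Icc 1 Z).filter (fun l => l * d₂ ≤ Z ∧ l * d₁ ≤ Z)).image (fun l => (l * d₂, l * d₁)) := by
    ext ⟨n, n'⟩
    simp only [Finset.mem_filter, Finset.mem_product, Finset.mem_Icc, Finset.mem_image, Prod.mk.injEq]
    constructor
    · rintro ⟨⟨⟨a1, a2⟩, a3, a4⟩, a5⟩
      have a6 : n * d₁ = n' * d₂ := by
        apply Nat.eq_of_mul_eq_mul_left hg
        calc g * (n * d₁) = n * (g * d₁) := by ring
          _ = n' * (g * d₂) := a5
          _ = g * (n' * d₂) := by ring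
      have a7 : d₂ ∣ n := by
        have : d₂ ∣ n * d₁ := ⟨n', by rw [a6]; ring⟩
        exact (Nat.Coprime.symm hd).dvd_of_dvd_mul_right this
      obtain ⟨l, rfl⟩ := a7
      have a8 : n' = l * d₁ := by
        apply Nat.eq_of_mul_eq_mul_right hd₂
        rw [← a6]; ring
      subst a8
      refine ⟨l, ⟨⟨?_, ?_⟩, ?_, a4⟩, by ring, rfl⟩
      · rcases Nat.eq_zero_or_pos l with rfl | h
        · simp at a1
        · exact h
      · exact (Nat.le_mul_of_pos_right l hd₁).trans a4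
      · rw [mul_comm]; exact a2
    · rintro ⟨l, ⟨⟨b1, _⟩, b3, b4⟩, rfl, rfl⟩
      refine ⟨⟨⟨Nat.mul_pos b1 hd₂, b3⟩, Nat.mul_pos b1 hd₁, b4⟩, by ring⟩
  rw [h1, h2, h3, Finset.sum_image]
  intro l _ l' _ h
  simp only [Prod.mk.injEq] at h
  exact Nat.eq_of_mul_eq_mul_right hd₂ h.1

theorem t_SUM : S_SUM := by
  intro c₁ c₂ Z H₁ H₂ y₀ y₁ hc₁ hc₂ hH₁ hH₂ b₁ b₂ e₁ e₂ s₁ s₂ hy hZ
  set g := Nat.gcd c₁ c₂ with hgdef
  have hg : 0 < g := Nat.gcd_pos_of_pos_left _ hc₁
  obtain ⟨d₁, hd₁⟩ : g ∣ c₁ := Nat.gcd_dvd_left _ _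
  obtain ⟨d₂, hd₂⟩ : g ∣ c₂ := Nat.gcd_dvd_right _ _
  have hd₁0 : 0 < d₁ := by
    rcases Nat.eq_zero_or_pos d₁ with h | h
    · rw [h, mul_zero] at hd₁; omega
    · exact h
  have hd₂0 : 0 < d₂ := by
    rcases Nat.eq_zero_or_pos d₂ with h | h
    · rw [h, mul_zero] at hd₂; omega
    · exact h
  have hcop : Nat.Coprime d₁ d₂ := by
    have h := hgdef
    rw [hd₁, hd₂, Nat.gcd_mul_left] at h
    have h2 : g * 1 = g * Nat.gcd d₁ d₂ := by rw [mul_one]; exact h
    exact (Nat.eq_of_mul_eq_mul_left hg h2).symm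
  have hgR : (0 : ℝ) < g := by exact_mod_cast hg
  have hd₁R : (0 : ℝ) < d₁ := by exact_mod_cast hd₁0
  have hd₂R : (0 : ℝ) < d₂ := by exact_mod_cast hd₂0
  have lc₁ : Real.log c₁ = Real.log g + Real.log d₁ := by
    rw [hd₁]; push_cast; rw [Real.log_mul hgR.ne' hd₁R.ne']
  have lc₂ : Real.log c₂ = Real.log g + Real.log d₂ := by
    rw [hd₂]; push_cast; rw [Real.log_mul hgR.ne' hd₂R.ne']
  have lg0 : 0 ≤ Real.log g := Real.log_natCast_nonneg g
  have ld₁ : 0 ≤ Real.log d₁ := Real.log_natCast_nonneg d₁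
  have ld₂ : 0 ≤ Real.log d₂ := Real.log_natCast_nonneg d₂
  set H : ℝ → ℝ := fun v => H₁ (v + Real.log d₂) * H₂ (v + Real.log d₁) with hH
  have hHc : ContDiff ℝ 1 H := (hH₁.comp (contDiff_id.add contDiff_const)).mul (hH₂.comp (contDiff_id.add contDiff_const))
  have hH1 : ∀ u, |H u| ≤ 1 := by
    intro u
    rw [hH]
    simp only [abs_mul]
    exact mul_le_one₀ (b₁ _) (abs_nonneg _) (b₂ _)
  have hH2 : ∀ u, |deriv H u| ≤ 2 := by
    intro u
    have a1 : HasDerivAt (fun v => H₁ (v + Real.log d₂)) (deriv H₁ (u + Real.log d₂)) u := by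
      have := ((hH₁.differentiable (by norm_num)) (u + Real.log d₂)).hasDerivAt.comp_add_const u (Real.log d₂)
      exact this
    have a2 : HasDerivAt (fun v => H₂ (v + Real.log d₁)) (deriv H₂ (u + Real.log d₁)) u := by
      have := ((hH₂.differentiable (by norm_num)) (u + Real.log d₁)).hasDerivAt.comp_add_const u (Real.log d₁)
      exact this
    have a3 : deriv H u = deriv H₁ (u + Real.log d₂) * H₂ (u + Real.log d₁) + H₁ (u + Real.log d₂) * deriv H₂ (u + Real.log d₁) :=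
      (a1.mul a2).deriv
    rw [a3]
    refine (abs_add_le _ _).trans ?_
    rw [abs_mul, abs_mul]
    have x1 := mul_le_one₀ (e₁ (u + Real.log d₂)) (abs_nonneg _) (b₂ (u + Real.log d₁))
    have x2 := mul_le_one₀ (b₁ (u + Real.log d₂)) (abs_nonneg _) (e₂ (u + Real.log d₁))
    linarith
  have hHv : ∀ u, u < y₀ - Real.log d₂ → H u = 0 := by
    intro u hu
    by_contra hne
    have : H₁ (u + Real.log d₂) ≠ 0 := fun h0 => hne (by rw [hH]; simp only [h0, zero_mul])
    have := (s₁ _ this).1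
    linarith
  have hHZ : ∀ u, Real.log Z < u → H u = 0 := by
    intro u hu
    by_contra hne
    have : H₁ (u + Real.log d₂) ≠ 0 := fun h0 => hne (by rw [hH]; simp only [h0, zero_mul])
    have h1 := (s₁ _ this).2
    have h2 : y₁ ≤ Real.log Z := by
      rw [Real.le_log_iff_exp_le (lt_of_lt_of_le (Real.exp_pos _) hZ)]
      exact hZ
    linarith
  -- the sum
  have hsum : (∑ n ∈ Finset.Icc 1 Z, ∑ n' ∈ Finset.Icc 1 Z, if n * c₁ = n' * c₂ then
      1 / Real.sqrt ((n : ℝ) * n') * (H₁ (Real.log n) * H₂ (Real.log n')) else 0) =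
      (g : ℝ) / Real.sqrt ((c₁ : ℝ) * c₂) * ∑ l ∈ Finset.Icc 1 Z, H (Real.log l) / l := by
    have hp := pairs d₁ d₂ g Z hg hd₁0 hd₂0 hcop (fun n n' => 1 / Real.sqrt ((n : ℝ) * n') * (H₁ (Real.log n) * H₂ (Real.log n'))) ?_
    · rw [hd₁, hd₂, hp, Finset.mul_sum]
      apply Finset.sum_congr rfl
      intro l hl
      have hl1 : (0 : ℝ) < l := by exact_mod_cast (Finset.mem_Icc.1 hl).1
      have x1 : Real.sqrt (((l * d₂ : ℕ) : ℝ) * ((l * d₁ : ℕ) : ℝ)) = l * Real.sqrt ((d₁ : ℝ) * d₂) := by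
        push_cast
        rw [show (l : ℝ) * d₂ * (l * d₁) = l ^ 2 * (d₁ * d₂) by ring, Real.sqrt_mul (by positivity), Real.sqrt_sq hl1.le]
      have x2 : Real.sqrt (((g * d₁ : ℕ) : ℝ) * ((g * d₂ : ℕ) : ℝ)) = g * Real.sqrt ((d₁ : ℝ) * d₂) := by
        push_cast
        rw [show (g : ℝ) * d₁ * (g * d₂) = g ^ 2 * (d₁ * d₂) by ring, Real.sqrt_mul (by positivity), Real.sqrt_sq hgR.le]
      have x3 : Real.log ((l * d₂ : ℕ) : ℝ) = Real.log l + Real.log d₂ := by
        push_cast; rw [Real.log_mul hl1.ne' hd₂R.ne']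
      have x4 : Real.log ((l * d₁ : ℕ) : ℝ) = Real.log l + Real.log d₁ := by
        push_cast; rw [Real.log_mul hl1.ne' hd₁R.ne']
      rw [x1, x2, x3, x4, hH]
      have hs : Real.sqrt ((d₁ : ℝ) * d₂) ≠ 0 := by positivity
      field_simp
    · intro l hl hlt
      have hl1 : (0 : ℝ) < l := by exact_mod_cast hl
      have hZpos : (0 : ℝ) < Z := lt_of_lt_of_le (Real.exp_pos _) hZ
      have h2 : y₁ ≤ Real.log Z := by
        rw [Real.le_log_iff_exp_le hZpos]
        exact hZ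
      rcases hlt with h | h
      · have : H₁ (Real.log ((l * d₂ : ℕ) : ℝ)) = 0 := by
          by_contra hne
          have h1 := (s₁ _ hne).2
          have h3 : Real.log Z < Real.log ((l * d₂ : ℕ) : ℝ) := Real.log_lt_log hZpos (by exact_mod_cast h)
          linarith
        simp only [this, zero_mul, mul_zero]
      · have : H₂ (Real.log ((l * d₁ : ℕ) : ℝ)) = 0 := by
          by_contra hne
          have h1 := (s₂ _ hne).2
          have h3 : Real.log Z < Real.log ((l * d₁ : ℕ) : ℝ) := Real.log_lt_log hZpos (by exact_mod_cast h)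
          linarith
        simp only [this, mul_zero]
  -- the integral
  have hint : ∫ s : ℝ, H₁ (s - Real.log c₁) * H₂ (s - Real.log c₂) = ∫ x in (1 : ℝ)..(Z + 1), H (Real.log x) / x := by
    have a1 : ∫ s : ℝ, H₁ (s - Real.log c₁) * H₂ (s - Real.log c₂) = ∫ v : ℝ, H v := by
      rw [← MeasureTheory.integral_add_right_eq_self (fun s : ℝ => H₁ (s - Real.log c₁) * H₂ (s - Real.log c₂)) (Real.log g + Real.log d₁ + Real.log d₂)]
      congr 1
      ext v
      rw [hH, lc₁, lc₂]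
      ring_nf
    have hZ0 : (0 : ℝ) ≤ Z := Nat.cast_nonneg Z
    have hl0 : 0 ≤ Real.log ((Z : ℝ) + 1) := Real.log_nonneg (by linarith)
    have hZpos : (0 : ℝ) < Z := lt_of_lt_of_le (Real.exp_pos _) hZ
    have a2 : ∫ v : ℝ, H v = ∫ v in Set.Icc 0 (Real.log ((Z : ℝ) + 1)), H v := by
      symm
      apply MeasureTheory.setIntegral_eq_integral_of_forall_compl_eq_zero
      intro v hv
      rw [Set.mem_Icc, not_and_or, not_le, not_le] at hv
      rcases hv with h | h
      · apply hHv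
        rw [lc₁, lc₂] at hy
        linarith
      · apply hHZ
        exact lt_of_le_of_lt (Real.log_le_log hZpos (by linarith)) h
    rw [a1, a2, MeasureTheory.integral_Icc_eq_integral_Ioc, ← intervalIntegral.integral_of_le hl0]
    have a3 := intervalIntegral.integral_comp_mul_deriv (a := 1) (b := (Z : ℝ) + 1) (f := Real.log) (f' := fun x => x⁻¹) (g := H)
      (fun x hx => by
        rw [Set.uIcc_of_le (by linarith)] at hx
        exact Real.hasDerivAt_log (by linarith [hx.1]))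
      (by
        apply ContinuousOn.inv₀ continuousOn_id
        intro x hx
        rw [Set.uIcc_of_le (by linarith)] at hx
        have : (0 : ℝ) < x := by linarith [hx.1]
        exact this.ne')
      hHc.continuous
    rw [Real.log_one] at a3
    rw [← a3]
    rfl
  rw [hsum, hint, ← mul_sub, abs_mul]
  have hcmp := sum_int (fun x => H (Real.log x) / x) (fun x => -(3 / max x (Real.exp (y₀ - Real.log d₂)))) ?_
    (fun x y hx hxy => comp H hHc hH1 hH2 _ hHv x y hx hxy) Z
  · have k1 : |∑ l ∈ Finset.Icc 1 Z, H (Real.log l) / l - ∫ x in (1 : ℝ)..(Z + 1), H (Real.log x) / x| ≤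
        3 * Real.exp (-(y₀ - Real.log d₂)) := by
      refine hcmp.trans ?_
      have m1 : (0 : ℝ) < Real.exp (y₀ - Real.log d₂) := Real.exp_pos _
      have m2 : 0 ≤ 3 / max ((Z : ℝ) + 1) (Real.exp (y₀ - Real.log d₂)) := by
        apply div_nonneg (by norm_num)
        exact m1.le.trans (le_max_right _ _)
      have m3 : 3 / max (1 : ℝ) (Real.exp (y₀ - Real.log d₂)) ≤ 3 / Real.exp (y₀ - Real.log d₂) :=
        div_le_div_of_nonneg_left (by norm_num) m1 (le_max_right _ _)
      rw [Real.exp_neg, ← div_eq_mul_inv]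
      linarith
    have k2 : |(g : ℝ) / Real.sqrt ((c₁ : ℝ) * c₂)| ≤ 1 := by
      have hs : (g : ℝ) ≤ Real.sqrt ((c₁ : ℝ) * c₂) := by
        apply Real.le_sqrt_of_sq_le
        have g1 : (g : ℝ) ≤ c₁ := by exact_mod_cast Nat.le_of_dvd hc₁ (Nat.gcd_dvd_left _ _)
        have g2 : (g : ℝ) ≤ c₂ := by exact_mod_cast Nat.le_of_dvd hc₂ (Nat.gcd_dvd_right _ _)
        nlinarith
      have hs0 : 0 < Real.sqrt ((c₁ : ℝ) * c₂) := lt_of_lt_of_le hgR hs
      rw [abs_of_nonneg (by positivity)]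
      rw [div_le_one hs0]
      exact hs
    have k3 : 3 * Real.exp (-(y₀ - Real.log d₂)) ≤ 4 * Real.exp (-(y₀ - Real.log c₁ - Real.log c₂)) := by
      have : Real.exp (-(y₀ - Real.log d₂)) ≤ Real.exp (-(y₀ - Real.log c₁ - Real.log c₂)) := by
        apply Real.exp_le_exp.2
        rw [lc₁, lc₂]
        linarith
      have h0 := Real.exp_pos (-(y₀ - Real.log c₁ - Real.log c₂))
      linarith
    calc |(g : ℝ) / Real.sqrt ((c₁ : ℝ) * c₂)| * |∑ l ∈ Finset.Icc 1 Z, H (Real.log l) / l - ∫ x in (1 : ℝ)..(Z + 1), H (Real.log x) / x|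
        ≤ 1 * (3 * Real.exp (-(y₀ - Real.log d₂))) := mul_le_mul k2 k1 (abs_nonneg _) (by norm_num)
      _ ≤ _ := by rw [one_mul]; exact k3
  · intro x hx
    have hx0 : x ≠ 0 := by
      have : (1 : ℝ) ≤ x := hx
      linarith
    apply ContinuousAt.continuousWithinAt
    apply ContinuousAt.div _ continuousAt_id hx0
    exact hHc.continuous.continuousAt.comp (Real.continuousAt_log hx0)

end

end Pool.Agent.Q208.UM
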